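import Pool.Agent.H26.FS.Frob

/-!
# Frobenius semisimplicity and graph hypersurfaces

For a finite simple graph `G` let `Ĝ` be the cone over `G` (one more vertex, joined to all vertices of
`G`). The graph hypersurface `X_G = kirS k G` is the zero set, in the affine space of the edges of `Ĝ`
over `k`, of the determinant of the reduced Laplacian of `Ĝ` with variable weights of the edges. By the
theorem of Kirchhoff this determinant is the sum of the products `∏_{e ∈ T} x_e` over the spanning trees
`T` of `Ĝ`.

Let `k` be the field with `q = p` elements (`Finite k`, and `Frac k`: every element is a quotient of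
integers), `ℓ ≠ p` a prime number, `E` an algebraic closure of `ℚ_ℓ`, and `F` the geometric Frobenius.
A vector space over `E` with an endomorphism `F` is a module over the polynomial ring `E[F]` (`FMod E`).
Let

* `H j X` be the cohomology `H^j(X ⊗ k̄, E)` of the complete schemes `X` over `k`, and `D.G w j X` the parts
  `Gr^W_w H^j_c(X ⊗ k̄, E)` of weight `w` of the cohomology with compact supports of the separated schemes
  of finite type, with the known properties `IsFrob` (as in the library file `OneWeightOfCubics`; here only
  `full` and `subquotient` are used, the theorems of Deligne and de Jong by which semisimplicity for smooth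
  projective varieties implies semisimplicity for complete varieties);
* `T w j X = H^w(W_j(X))`, where `W(X) = (W_0(X) → W_1(X) → ⋯)` is the weight complex (with compact
  supports) of the separated scheme `X` of finite type, a bounded complex of Chow motives with rational
  coefficients (Gillet, Soulé; over finite fields it exists by the theorem of de Jong). The cohomology of the
  complex `T w j X`, `j ∈ ℤ`, is `Gr^W_w H^{w+j}_c(X ⊗ k̄, E)`. The structure `IsComplexes` lists what is used:
  these are finite dimensional spaces, only finitely many are nonzero, they are direct factors of the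
  cohomology of smooth projective schemes, `W(Y) = h(Y)` for smooth projective `Y`, and for every function `φ`
  which is additive for direct sums the Euler characteristic `chi T φ w X = ∑_j (-1)^j φ (T w j X)` is additive
  for a closed subscheme and its complement and behaves in the usual way for affine bundles and for
  `X × 𝔾_m` (`W(X)` is well defined up to homotopy, there are distinguished triangles
  `W(U) → W(X) → W(Z)`, and `W(X × 𝔸^1) = W(X)(-1)`).

For a set `S` of eigenvalues which is stable under multiplication with powers of `q` (for example the set of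
all elements of `E`, or the set of all powers of `q`, which matters for the conjecture of Tate) let

* `blocks S V` be the number of the Jordan blocks of `F` on `V` with eigenvalues in `S` (the dimension of
  the sum of the eigenspaces), and `mult S V` the number of the eigenvalues in `S`, with their
  multiplicities (the dimension of the sum of the generalized eigenspaces); `dimF V` the dimension of `V`;
* `kdim α s V` the dimension of the kernel of `(F - α) ^ s` on `V`;
* `NoBlock S V` the statement that all Jordan blocks of `F` on `V` with eigenvalues in `S` have size one.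

**Theorem.** (A) Let `s ≥ 2`. The following are equivalent:

1. `F` has no Jordan block of size at least two with an eigenvalue in `S` on the cohomology of any complete
   variety over `k` (question Q1 for `k`, `ℓ` and the eigenvalues in `S`);
2. the same for the smooth projective varieties over `k`;
3. for all separated schemes `X` of finite type over `k` and all `w`:
   `∑_j (-1)^j mult S (T w j X) = ∑_j (-1)^j blocks S (T w j X)`, and
   `∑_j (-1)^j dim ker ((F - α)^t | T w j X)` does not depend on `t ≥ 1`, for all `α` in `S`;
4. for all finite graphs `G` and all `w`: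
   `∑_j (-1)^j mult S (T w j X_G) = ∑_j (-1)^j blocks S (T w j X_G)`;
5. for all finite graphs `G`, all `w` and all `α` in `S`:
   `∑_j (-1)^j dim ker ((F - α)^s | T w j X_G) = ∑_j (-1)^j dim ker (F - α | T w j X_G)`.

(B) Hence Frobenius acts semisimply on the cohomology of all complete varieties over `k` if and only if for
all finite graphs `G` and all `w` the number of Jordan blocks of `F` on `H^w(W_j(X_G))`, counted with the
signs `(-1)^j`, is the virtual Betti number
`∑_j (-1)^j dim H^w(W_j(X_G)) = ∑_j (-1)^j dim Gr^W_w H^{w+j}_c(X_G)`. (The virtual Betti numbers are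
determined by the numbers of points of `X_G` over the finite extensions of `k`.)

(Q1 over all finite fields of characteristic `p` is equivalent to Q1 over the prime field, where varieties
over extensions are varieties over the prime field.)
-/

set_option autoImplicit false

open CategoryTheory AlgebraicGeometry Pool.Agent.Y116.UV Pool.Agent.Z125.UN
  Pool.Agent.Q193.LT Pool.Agent.Q148.LI Pool.Agent.H21.GH Pool.Agent.H26.FS

namespace Pool.Agent.Results.MP_b685ef_ag.GraphHypersurfaces

/-- Q1 for `k` and the eigenvalues in `S`. -/
def Q1 (k : Type) [Field k] {E : Type} [Field E] (H : ℤ → Sch k → FMod E) (S : Set E) : Prop :=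
  ∀ X : Sch k, Complete X → ∀ j, NoBlock S (H j X)

/-- **Frobenius semisimplicity and graph hypersurfaces.** See the explanations above. -/
theorem result {k : Type} [Field k] [Finite k] (hk : Frac k) {ℓ : ℕ} [Fact ℓ.Prime]
    {D : WtData k (FMod (AlgebraicClosure ℚ_[ℓ]))}
    {H : ℤ → Sch k → FMod (AlgebraicClosure ℚ_[ℓ])} (h : IsFrob D H (Nat.card k))
    {T : ℤ → ℤ → Sch k → FMod (AlgebraicClosure ℚ_[ℓ])} (hT : IsComplexes T H (Nat.card k)) :
    (∀ S : Set (AlgebraicClosure ℚ_[ℓ]), Stable (Nat.card k) S → ∀ s : ℕ, 2 ≤ s →
      List.TFAE [
        Q1 k H S,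
        ∀ Y : Sch k, SmoothProj Y → ∀ w, NoBlock S (H w Y),
        ∀ X : Sch k, FT True X → ∀ w : ℤ, chi T (mult S) w X = chi T (blocks S) w X ∧
          ∀ α ∈ S, ∀ t : ℕ, 1 ≤ t → chi T (kdim α t) w X = chi T (kdim α 1) w X,
        ∀ (n : ℕ) (G : SimpleGraph (Fin n)) (w : ℤ),
          chi T (mult S) w (kirS k G) = chi T (blocks S) w (kirS k G),
        ∀ (n : ℕ) (G : SimpleGraph (Fin n)) (w : ℤ), ∀ α ∈ S,
          chi T (kdim α s) w (kirS k G) = chi T (kdim α 1) w (kirS k G)]) ∧
    (Q1 k H Set.univ ↔ ∀ (n : ℕ) (G : SimpleGraph (Fin n)) (w : ℤ),
      chi T dimF w (kirS k G) = chi T (blocks Set.univ) w (kirS k G)) := by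
  have : CharZero (AlgebraicClosure ℚ_[ℓ]) :=
    charZero_of_injective_algebraMap (algebraMap ℚ_[ℓ] (AlgebraicClosure ℚ_[ℓ])).injective
  have hq : ((Nat.card k : ℕ) : AlgebraicClosure ℚ_[ℓ]) ≠ 0 := by
    exact_mod_cast Nat.card_pos.ne'
  have h12 : ∀ S : Set (AlgebraicClosure ℚ_[ℓ]),
      Q1 k H S ↔ ∀ Y : Sch k, SmoothProj Y → ∀ w, NoBlock S (H w Y) := fun S =>
    ⟨fun h1 Y hY => h1 Y (SmoothProj.proper' hY).proper,
      fun h1 X hX j => (h.full X hX S j).mpr fun w =>
        h.subquotient S (fun Y hY j =>
          (h.full Y (SmoothProj.proper' hY).proper S j).mp (h1 Y hY j) j) X (Complete.ft hX) w j⟩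
  refine ⟨fun S hS s hs => ?_, ?_⟩
  · have h1 := tfae_graphs hk hT hq hS hs
    tfae_have 1 ↔ 2 := h12 S
    tfae_have 2 → 3 := (h1.out 0 1).mp
    tfae_have 3 → 4 := fun h2 n G w => (h2 _ (ft_kirS G True) w).1
    tfae_have 4 → 2 := (h1.out 2 0).mp
    tfae_have 3 → 5 := fun h2 n G w α hα => (h2 _ (ft_kirS G True) w).2 α hα s (by omega)
    tfae_have 5 → 2 := (h1.out 3 0).mp
    tfae_finish
  · have hS : Stable (Nat.card k) (Set.univ : Set (AlgebraicClosure ℚ_[ℓ])) :=
      fun _ _ _ => trivial
    have h1 := tfae_graphs hk hT hq hS (le_refl 2)
    have h2 : ∀ (n : ℕ) (G : SimpleGraph (Fin n)) (w : ℤ),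
        chi T (mult Set.univ) w (kirS k G) = chi T dimF w (kirS k G) := fun n G w =>
      chi_congr fun j => mult_univ (hT.finite _ (ft_kirS G True) w j)
    refine (h12 _).trans ((h1.out 0 2).trans ?_)
    simp only [h2]

end Pool.Agent.Results.MP_b685ef_ag.GraphHypersurfaces
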